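import Pool.Agent.H.MP_3f639a_co.Main

set_option autoImplicit false

namespace Pool.Agent.Results.MP_3f639a_co.Q2
open Pool.Agent.H.MP_3f639a_co
open Pool.Agent.H.MP_b542c4_co (ph ph_inj iso)

/-- combinatorial 4-configuration with point set `α`, line set `β`, incidence `I` -/
def Config4 {α β : Type} (I : α → β → Prop) : Prop :=
  Finite α ∧ Finite β ∧ Nat.card α = Nat.card β ∧
    (∀ l, {p | I p l}.ncard = 4) ∧ (∀ p, {l | I p l}.ncard = 4) ∧
    ∀ p q, p ≠ q → {l | I p l ∧ I q l}.Subsingleton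

/-- geometric realization in a real vector space `V` -/
def Realizes {α β V : Type} [AddCommGroup V] [Module ℝ V] (I : α → β → Prop) (P : α → V)
    (L : β → AffineSubspace ℝ V) : Prop :=
  Function.Injective P ∧ Function.Injective L ∧
    (∀ l, Module.finrank ℝ (L l).direction = 1) ∧ ∀ p l, P p ∈ L l ↔ I p l

/-- `g` maps the set of points onto itself and the set of lines onto itself -/
def IsSym {α β : Type} (P : α → ℂ) (L : β → AffineSubspace ℝ ℂ) (g : ℂ ≃ᵢ ℂ) : Prop :=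
  g '' Set.range P = Set.range P ∧
    (fun s : Set ℂ => g '' s) '' Set.range (fun l => (L l : Set ℂ)) =
      Set.range (fun l => (L l : Set ℂ))

/-- exactly `k` orbits of points and `k` orbits of lines under the symmetry group -/
def IsAstral {α β : Type} (k : ℕ) (P : α → ℂ) (L : β → AffineSubspace ℝ ℂ) : Prop :=
  ∃ (oP : α → Fin k) (oL : β → Fin k), Function.Surjective oP ∧ Function.Surjective oL ∧
    (∀ p q, oP p = oP q ↔ ∃ g, IsSym P L g ∧ g (P p) = P q) ∧
    (∀ l l', oL l = oL l' ↔ ∃ g, IsSym P L g ∧ g '' (L l : Set ℂ) = L l')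

theorem nc {s : Set Ix} {n : ℕ} (p : Ix → Prop) [DecidablePred p]
    (h : (Finset.univ.filter p).card = n) (hs : s = {x | p x}) : s.ncard = n := by
  rw [← h, ← Set.ncard_coe_finset, hs]
  congr 1
  ext x
  simp

theorem sym_iso (d : DihedralGroup 12) : IsSym PA LA (iso d) := by
  constructor
  · ext z
    constructor
    · rintro ⟨_, ⟨p, rfl⟩, rfl⟩
      exact ⟨_, (iso_P d p).symm⟩
    · rintro ⟨q, rfl⟩
      obtain ⟨p, rfl⟩ := aP_surj d q
      exact ⟨_, ⟨p, rfl⟩, iso_P d p⟩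
  · ext z
    constructor
    · rintro ⟨_, ⟨p, rfl⟩, rfl⟩
      exact ⟨_, (iso_L d p).symm⟩
    · rintro ⟨q, rfl⟩
      obtain ⟨p, rfl⟩ := aL_surj d q
      exact ⟨_, ⟨p, rfl⟩, iso_L d p⟩

theorem result : ∃ (α β : Type) (I : α → β → Prop), Config4 I ∧
    (∀ p q, Relation.EqvGen (fun a b => ∃ l, I a l ∧ I b l) p q) ∧
    (∃ (P : α → ℂ) (L : β → AffineSubspace ℝ ℂ), Realizes I P L ∧ IsAstral 3 P L) ∧
    ∃ (P : α → Fin 3 → ℝ) (L : β → AffineSubspace ℝ (Fin 3 → ℝ)), Realizes I P L ∧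
      Module.finrank ℝ (affineSpan ℝ (Set.range P)).direction = 3 := by
  refine ⟨Ix, Ix, Inc, ⟨inferInstance, inferInstance, rfl,
    fun l => nc _ (cfg1 l) rfl, fun l => nc _ (cfg2 l) rfl, fun p q h => ?_⟩, conn,
    ⟨PA, LA, realA, Prod.fst, Prod.fst, Prod.fst_surjective, Prod.fst_surjective, ?_, ?_⟩,
    _, _, Lib.helper1.Cfg.real ph T3 id nx Inc ph_inj T3_inj nx_ne T3_on sepL,
    Lib.helper1.Cfg.hull_full ph T3 ph_inj _ _ T3_det⟩
  · intro a ha b hb
    exact Finset.card_le_one.1 (cfg3 p q h) a (by simpa using ha) b (by simpa using hb)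
  · rintro ⟨o, i⟩ ⟨o', j⟩
    constructor
    · rintro rfl
      refine ⟨iso (.r (j - i)), sym_iso _, ?_⟩
      rw [iso_P, aP]
      simp
    · rintro ⟨g, hg, h⟩
      obtain ⟨d, rfl⟩ := mem_iso g hg.1
      rw [iso_P] at h
      rw [← realA.1 h, aP_fst]
  · rintro ⟨o, i⟩ ⟨o', j⟩
    constructor
    · rintro rfl
      refine ⟨iso (.r (j - i)), sym_iso _, ?_⟩
      rw [iso_L, aL]
      simp
    · rintro ⟨g, hg, h⟩
      obtain ⟨d, rfl⟩ := mem_iso g hg.1
      rw [iso_L] at h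
      rw [← realA.2.1 (SetLike.coe_injective h), aL_fst]

end Pool.Agent.Results.MP_3f639a_co.Q2
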